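import Pool.Agent.Work.MP_46fa68_38.TwoRow

/-!
# MP_46fa68_co, S4: the top bead to second order

For the rows `≥ 3` (set `C`, `k` beads below `k + a`) the sequence `g q = (1 + q δ) * rh k a C q` is
`1 + q δ' + q (q - 1) κ' + R q` with the exact values at `q = 1, 2` and
`|R q| ≤ q (q - 1) (q - 2) (rh 1 - 1) μ (rh 1)^q`, `μ = max κ' (δ' / (a + 2))` (`rh_second`), and
`0 ≤ κ' ≤ δ' (rh 1 - 1) (rh 1)^2` (`rh_kappa`).  Final form for the top bead: `Rr_second`.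
-/

set_option autoImplicit false

open Finset Equiv

namespace Pool.OB

open Pool.JM

theorem qqq_nonneg (q : ℕ) : (0 : ℝ) ≤ (q : ℝ) * (q - 1) * (q - 2) := by
  rcases q with _ | _ | q
  · simp
  · simp
  · push_cast
    have h : (0 : ℝ) ≤ q := Nat.cast_nonneg q
    have h1 : (0 : ℝ) ≤ (q : ℝ) + 1 + 1 := by linarith
    have h2 : (0 : ℝ) ≤ (q : ℝ) + 1 + 1 - 1 := by linarith
    have h3 : (0 : ℝ) ≤ (q : ℝ) + 1 + 1 - 2 := by linarith
    exact mul_nonneg (mul_nonneg h1 h2) h3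

theorem gg_two {Z c : ℝ} :
    gg Z c ((2 : ℕ) : ℝ) = Z * (Z - c + 2) / ((Z - c) * (Z + 2)) := by
  unfold gg
  push_cast
  rfl

/-- the exact remainder of one factor -/
theorem gg_second {Z c δ κ : ℝ} (hc : c < Z) (hZ : 0 < Z) (q : ℕ) :
    (1 + q * δ + q * (q - 1) * κ) * gg Z c q =
      1 + q * ((1 + δ) * gg Z c ((1 : ℕ) : ℝ) - 1) +
        q * (q - 1) * ((κ * Z * (Z - c + 2) + c * (δ * Z - 1) / (Z + 1)) / ((Z - c) * (Z + 2))) +
        q * (q - 1) * (q - 2) * ((c / ((Z - c) * (Z + 2)) * (κ - (δ - 1 / Z) / (Z + 1))) *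
          (Z / (Z + q))) := by
  have hq : (0 : ℝ) ≤ q := Nat.cast_nonneg q
  have e1 : Z - c ≠ 0 := by
    have : 0 < Z - c := by linarith
    exact this.ne'
  have e2 : Z + 1 ≠ 0 := by positivity
  have e3 : Z + (q : ℝ) ≠ 0 := by positivity
  have e4 : Z + 2 ≠ 0 := by positivity
  have e5 : Z ≠ 0 := hZ.ne'
  unfold gg
  push_cast
  field_simp
  ring

theorem gg_kappa {Z c δ κ : ℝ} (hc : c < Z) (hZ : 0 < Z) :
    1 + 2 * ((1 + δ) * gg Z c ((1 : ℕ) : ℝ) - 1) +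
      2 * ((κ * Z * (Z - c + 2) + c * (δ * Z - 1) / (Z + 1)) / ((Z - c) * (Z + 2))) =
      (1 + 2 * δ + 2 * κ) * gg Z c ((2 : ℕ) : ℝ) := by
  have e1 : Z - c ≠ 0 := by
    have : 0 < Z - c := by linarith
    exact this.ne'
  have e2 : Z + 1 ≠ 0 := by positivity
  have e4 : Z + 2 ≠ 0 := by positivity
  have e5 : Z ≠ 0 := hZ.ne'
  unfold gg
  push_cast
  field_simp
  ring

theorem kappa_mono {Z c δ κ : ℝ} (hc0 : 0 ≤ c) (hc : c < Z) (hZ : 0 < Z) (hδ : 1 ≤ δ * Z)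
    (hκ : 0 ≤ κ) :
    κ ≤ (κ * Z * (Z - c + 2) + c * (δ * Z - 1) / (Z + 1)) / ((Z - c) * (Z + 2)) := by
  have h1 : 0 < Z - c := by linarith
  rw [le_div_iff₀ (by positivity)]
  have h2 : 0 ≤ c * (δ * Z - 1) / (Z + 1) :=
    div_nonneg (mul_nonneg hc0 (by linarith)) (by linarith)
  nlinarith [mul_nonneg hκ hc0]

/-- **second order expansion** -/
theorem rh_second : ∀ (k a : ℕ) (C : Finset ℕ), C.card = k → (∀ y ∈ C, y < k + a) →
    ∀ δ κ : ℝ, 1 ≤ δ * ((a : ℝ) + 1) → 0 ≤ κ → ∀ δ' κ' : ℝ, 1 + δ' = (1 + δ) * rh k a C 1 →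
      1 + 2 * δ' + 2 * κ' = (1 + 2 * δ + 2 * κ) * rh k a C 2 →
      κ ≤ κ' ∧ δ ≤ δ' ∧ ∀ μ : ℝ, κ' ≤ μ → δ' ≤ μ * ((a : ℝ) + 2) → ∀ q : ℕ,
        |(1 + q * δ + q * (q - 1) * κ) * rh k a C q - (1 + q * δ' + q * (q - 1) * κ')| ≤
          q * (q - 1) * (q - 2) * ((rh k a C 1 - 1) * μ) * rh k a C 1 ^ q
  | 0, a, C, hc, _ => by
    rw [card_eq_zero] at hc
    subst hc
    have h : ∀ q, rh 0 a ∅ q = 1 := fun q => by unfold rh; simp
    intro δ κ _ _ δ' κ' h1 h2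
    rw [h, mul_one] at h1 h2
    have e1 : δ' = δ := by linarith
    have e2 : κ' = κ := by linarith
    subst e1 e2
    refine ⟨le_rfl, le_rfl, fun μ _ _ q => ?_⟩
    rw [h, h]
    simp
  | k + 1, a, C, hc, hb => by
    intro δ κ hδ hκ δ' κ' h1 h2
    obtain ⟨c, hca, hcC, hmax, hrec⟩ := rh_step hc hb
    have hc' : (C.erase (k + c)).card = k := by rw [card_erase_of_mem hcC, hc]; omega
    have hb' : ∀ y ∈ C.erase (k + c), y < k + (a + 1) := fun y hy => by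
      have := hb y (mem_of_mem_erase hy); omega
    obtain ⟨p1, p2, -⟩ := rh_props k (a + 1) (C.erase (k + c)) hc' hb'
    have hcaR : (c : ℝ) ≤ a := by exact_mod_cast hca
    have ha : (0 : ℝ) ≤ a := Nat.cast_nonneg a
    have hc0 : (0 : ℝ) ≤ c := Nat.cast_nonneg c
    set Z : ℝ := (a : ℝ) + 1 with hZd
    have hcZ : (c : ℝ) < Z := by linarith
    have hZ : (0 : ℝ) < Z := by linarith
    have hZc : 0 < Z - c := by linarith
    have hδ0 : 0 < δ := by
      by_contra h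
      push Not at h
      nlinarith
    set φ := gg Z c ((1 : ℕ) : ℝ) with hφ
    have hφe : φ = 1 + c / ((Z - c) * (Z + 1)) := by rw [hφ, gg_one hcZ hZ]
    have hε0 : 0 ≤ (c : ℝ) / ((Z - c) * (Z + 1)) := by positivity
    have hφ1 : 1 ≤ φ := by rw [hφe]; linarith
    set δ1 := (1 + δ) * φ - 1 with hδ1d
    set κ1 := (κ * Z * (Z - c + 2) + c * (δ * Z - 1) / (Z + 1)) / ((Z - c) * (Z + 2)) with hκ1d
    have hκ1 : κ ≤ κ1 := kappa_mono hc0 hcZ hZ hδ hκ
    have hδδ1 : δ ≤ δ1 := by rw [hδ1d]; nlinarith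
    have hδ1' : 1 ≤ δ1 * (((a + 1 : ℕ) : ℝ) + 1) := by
      push_cast
      nlinarith
    have hg2 := gg_kappa (δ := δ) (κ := κ) hcZ hZ
    rw [← hφ, ← hδ1d, ← hκ1d] at hg2
    rw [hrec 1, ← hφ] at h1
    rw [hrec 2] at h2
    obtain ⟨i1, i2, i3⟩ := rh_second k (a + 1) (C.erase (k + c)) hc' hb' δ1 κ1 hδ1'
      (hκ.trans hκ1) δ' κ' (by rw [h1, hδ1d]; ring) (by rw [hg2, h2]; ring)
    refine ⟨hκ1.trans i1, hδδ1.trans i2, fun μ hμ1 hμ2 q => ?_⟩
    have hμ0 : 0 ≤ μ := by linarith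
    have hpow := rh_le_pow k (a + 1) (C.erase (k + c)) hc' hb' q
    have hE1 : 1 ≤ rh k (a + 1) (C.erase (k + c)) 1 := by
      rw [← rh_zero' hb']
      exact p2 0
    have hrpos := p1 q
    have i4 := i3 μ hμ1 (by push_cast; nlinarith) q
    have hgs := gg_second (δ := δ) (κ := κ) hcZ hZ q
    rw [← hφ, ← hδ1d, ← hκ1d] at hgs
    rw [hrec q, hrec 1, ← hφ]
    set E := rh k (a + 1) (C.erase (k + c)) 1
    set r := rh k (a + 1) (C.erase (k + c)) q
    set X : ℝ := (c : ℝ) / ((Z - c) * (Z + 2)) * (κ - (δ - 1 / Z) / (Z + 1)) with hX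
    have hqqq := qqq_nonneg q
    have hq0 : (0 : ℝ) ≤ q := Nat.cast_nonneg q
    -- the new error
    have hXa : |X| ≤ (φ - 1) * μ := by
      have x1 : 0 ≤ δ - 1 / Z := by
        rw [sub_nonneg, div_le_iff₀ hZ]
        exact hδ
      have x2 : 0 ≤ (δ - 1 / Z) / (Z + 1) := by positivity
      have x3 : (δ - 1 / Z) / (Z + 1) ≤ μ := by
        rw [div_le_iff₀ (by positivity)]
        have : 0 ≤ 1 / Z := by positivity
        have : δ ≤ μ * (a + 2) := (hδδ1.trans i2).trans hμ2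
        have e : Z + 1 = (a : ℝ) + 2 := by rw [hZd]; ring
        rw [e]
        linarith
      have x4 : |κ - (δ - 1 / Z) / (Z + 1)| ≤ μ := by
        rw [abs_le]
        constructor
        · linarith
        · linarith [hκ1.trans i1]
      have x5 : (c : ℝ) / ((Z - c) * (Z + 2)) ≤ φ - 1 := by
        rw [hφe]
        have : (c : ℝ) / ((Z - c) * (Z + 2)) ≤ c / ((Z - c) * (Z + 1)) :=
          div_le_div_of_nonneg_left hc0 (by positivity) (by nlinarith)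
        linarith
      have x6 : 0 ≤ (c : ℝ) / ((Z - c) * (Z + 2)) := by positivity
      rw [hX, abs_mul, abs_of_nonneg x6]
      exact mul_le_mul x5 x4 (abs_nonneg _) (by linarith)
    have hZq : Z / (Z + q) ≤ 1 := by
      rw [div_le_one (by positivity)]
      linarith
    have hZq0 : 0 ≤ Z / (Z + q) := by positivity
    have e1 : (1 + q * δ + q * (q - 1) * κ) * (gg Z c q * r) - (1 + q * δ' + q * (q - 1) * κ') =
        ((1 + q * δ1 + q * (q - 1) * κ1) * r - (1 + q * δ' + q * (q - 1) * κ')) +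
        (q * (q - 1) * (q - 2)) * (X * (Z / (Z + q)) * r) := by
      have : (1 + q * δ + q * (q - 1) * κ) * (gg Z c q * r) =
          ((1 + q * δ + q * (q - 1) * κ) * gg Z c q) * r := by ring
      rw [this, hgs]
      ring
    rw [e1]
    have hEq0 : 0 ≤ E ^ q := by positivity
    have hEq : E ^ q ≤ (φ * E) ^ q :=
      pow_le_pow_left₀ (by linarith) (by nlinarith) q
    have a1 : |X * (Z / (Z + q)) * r| ≤ (φ - 1) * μ * E ^ q := by
      rw [abs_mul, abs_mul, abs_of_nonneg hZq0, abs_of_pos hrpos]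
      have : |X| * (Z / (Z + q)) ≤ (φ - 1) * μ := by
        calc |X| * (Z / (Z + q)) ≤ |X| * 1 := mul_le_mul_of_nonneg_left hZq (abs_nonneg _)
          _ ≤ _ := by rw [mul_one]; exact hXa
      exact mul_le_mul this hpow hrpos.le (mul_nonneg (by linarith) hμ0)
    calc |((1 + q * δ1 + q * (q - 1) * κ1) * r - (1 + q * δ' + q * (q - 1) * κ')) +
        (q * (q - 1) * (q - 2)) * (X * (Z / (Z + q)) * r)|
        ≤ q * (q - 1) * (q - 2) * ((E - 1) * μ) * E ^ q +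
          q * (q - 1) * (q - 2) * ((φ - 1) * μ * E ^ q) := by
          refine (abs_add_le _ _).trans (add_le_add i4 ?_)
          rw [abs_mul, abs_of_nonneg hqqq]
          exact mul_le_mul_of_nonneg_left a1 hqqq
      _ = q * (q - 1) * (q - 2) * (μ * (((E - 1) + (φ - 1)) * E ^ q)) := by ring
      _ ≤ q * (q - 1) * (q - 2) * (μ * ((φ * E - 1) * (φ * E) ^ q)) := by
          refine mul_le_mul_of_nonneg_left (mul_le_mul_of_nonneg_left ?_ hμ0) hqqq
          have t3 : (E - 1) + (φ - 1) ≤ φ * E - 1 := by nlinarith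
          exact mul_le_mul t3 hEq hEq0 (by nlinarith)
      _ = _ := by ring

/-- the size of the second order coefficient, starting from `κ = 0` -/
theorem rh_kappa (k a : ℕ) (C : Finset ℕ) (hc : C.card = k) (hb : ∀ y ∈ C, y < k + a) (δ : ℝ)
    (hδ : 1 ≤ δ * ((a : ℝ) + 1)) (δ' κ' : ℝ) (h1 : 1 + δ' = (1 + δ) * rh k a C 1)
    (h2 : 1 + 2 * δ' + 2 * κ' = (1 + 2 * δ) * rh k a C 2) :
    0 ≤ κ' ∧ κ' ≤ δ' * (rh k a C 1 - 1) * rh k a C 1 ^ 2 := by
  obtain ⟨u1, u2⟩ := rh_two_sided k a C hc hb δ hδ 2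
  have e : (1 + δ) * rh k a C 1 - 1 = δ' := by linarith
  rw [e] at u1 u2
  push_cast at u1 u2
  rw [show (1 : ℝ) + 2 * δ = 1 + 2 * δ by ring] at u1
  constructor
  · linarith
  · linarith

end Pool.OB
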