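import Pool.Agent.Work.MP_46fa68_36.Theta
import Pool.Agent.Work.MP_46fa68_35.Second

/-!
# MP_46fa68_co, S4: the top bead of `Two k L b s B` to second order

With `D = L + 1 - b`, `e = Th1 1 - 1`, `δ = (1 + 1/D)(1 + e) - 1`, `κ` the exact second difference:
`Rr B (k+1+L) q = (L+1)!/(L+1+q)! * (1 + q δ + q (q-1) κ + R q)`, `0 ≤ κ ≤ δ e (1+e)^2`,
`|R q| ≤ q (q-1) (q-2) e μ (1+e)^q` for every `μ ≥ κ, δ/(L+3)`.
-/

set_option autoImplicit false

open Finset Equiv

namespace Pool.OB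

open Pool.JM

theorem Th_rh (C : Finset ℕ) (k A p : ℕ) : Th C k A p = rh k A C p := rfl

/-- the first order coefficient of the top bead -/
noncomputable def dl (B : Finset ℕ) (k L b : ℕ) : ℝ :=
  (1 + 1 / ((L : ℝ) + 1 - b)) * Th1 B k L b 1 - 1

/-- the second order coefficient of the top bead -/
noncomputable def kp (B : Finset ℕ) (k L b : ℕ) : ℝ :=
  ((1 + 2 / ((L : ℝ) + 1 - b)) * Th1 B k L b 2 - 1 - 2 * dl B k L b) / 2

/-- the effect of the rows `≥ 3` on one step of the top bead -/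
noncomputable def ee (B : Finset ℕ) (k L b : ℕ) : ℝ := Th1 B k L b 1 - 1

/-- the normalized sequence of the top bead -/
noncomputable def gs (B : Finset ℕ) (k L b q : ℕ) : ℝ :=
  (1 + (q : ℝ) / ((L : ℝ) + 1 - b)) * Th1 B k L b q

theorem Rr_gs {k L b s : ℕ} {B : Finset ℕ} (h : Two k L b s B) (q : ℕ) :
    Rr B (k + 1 + L) q = gs B k L b q * (((L + 1).factorial : ℝ) / (L + 1 + q).factorial) := by
  rw [h.row1]
  unfold gs
  ring

theorem two_D {k L b s : ℕ} {B : Finset ℕ} (h : Two k L b s B) : (1 : ℝ) ≤ (L : ℝ) + 1 - b := by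
  have : (b : ℝ) ≤ L := by exact_mod_cast h.hbL
  linarith

theorem two_hlt {k L b s : ℕ} {B : Finset ℕ} (h : Two k L b s B) :
    ∀ y ∈ (B.erase (k + 1 + L)).erase (k + b), y < k + (L + 1) := fun y hy => by
  have h1 := h.hlt y hy
  have h2 := h.hbL
  omega

theorem ee_nonneg {k L b s : ℕ} {B : Finset ℕ} (h : Two k L b s B) : 0 ≤ ee B k L b := by
  have := h.one_le_Th1 1
  unfold ee
  linarith

/-- size of `e`: at most `x / (1 - x)`, `x = s / ((L + 2 - b) (L + 3))` -/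
theorem ee_le {k L b s : ℕ} {B : Finset ℕ} (h : Two k L b s B) :
    (1 + ee B k L b) * (1 - s / (((L : ℝ) + 2 - b) * (L + 3))) ≤ 1 := by
  have h2 := rh_one_le k (L + 1) s b _ (by have := h.hbL; omega) h.hc h.hlt h.hs
  have e1 : 1 + ee B k L b = rh k (L + 1) ((B.erase (k + 1 + L)).erase (k + b)) 1 := by
    unfold ee Th1
    rw [Th_rh]
    ring
  rw [e1]
  push_cast at h2
  rw [show (L : ℝ) + 2 - b = (L : ℝ) + 1 + 1 - b by ring, show (L : ℝ) + 3 = (L : ℝ) + 1 + 2 by ring]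
  exact h2

theorem dl_eq (B : Finset ℕ) (k L b : ℕ) :
    1 + dl B k L b = (1 + 1 / ((L : ℝ) + 1 - b)) * (1 + ee B k L b) := by
  unfold dl ee
  ring

theorem delta_cond {k L b s : ℕ} {B : Finset ℕ} (h : Two k L b s B) :
    1 ≤ 1 / ((L : ℝ) + 1 - b) * (((L + 1 : ℕ) : ℝ) + 1) := by
  have hD := two_D h
  have hb : (0 : ℝ) ≤ b := Nat.cast_nonneg b
  rw [one_div, ← div_eq_inv_mul, le_div_iff₀ (by linarith)]
  push_cast
  linarith

theorem dl_lower {k L b s : ℕ} {B : Finset ℕ} (h : Two k L b s B) :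
    1 / ((L : ℝ) + 1 - b) ≤ dl B k L b := by
  have hD := two_D h
  have he := ee_nonneg h
  have h1 : 0 ≤ 1 / ((L : ℝ) + 1 - b) := by positivity
  have := dl_eq B k L b
  nlinarith

theorem kp_bounds {k L b s : ℕ} {B : Finset ℕ} (h : Two k L b s B) :
    0 ≤ kp B k L b ∧ kp B k L b ≤ dl B k L b * ee B k L b * (1 + ee B k L b) ^ 2 := by
  have h1 := rh_kappa k (L + 1) _ h.hc (two_hlt h) (1 / ((L : ℝ) + 1 - b)) (delta_cond h)
    (dl B k L b) (kp B k L b) (by
      rw [dl_eq]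
      unfold ee Th1
      rw [Th_rh]
      ring) (by
      unfold kp Th1
      rw [Th_rh]
      ring)
  have e1 : 1 + ee B k L b = rh k (L + 1) ((B.erase (k + 1 + L)).erase (k + b)) 1 := by
    unfold ee Th1
    rw [Th_rh]
    ring
  rw [e1]
  have e2 : ee B k L b = rh k (L + 1) ((B.erase (k + 1 + L)).erase (k + b)) 1 - 1 := rfl
  rw [e2]
  exact h1

/-- **the second order expansion of the top bead** -/
theorem gs_second {k L b s : ℕ} {B : Finset ℕ} (h : Two k L b s B) {μ : ℝ}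
    (h1 : kp B k L b ≤ μ) (h2 : dl B k L b ≤ μ * ((L : ℝ) + 3)) (q : ℕ) :
    |gs B k L b q - (1 + q * dl B k L b + q * (q - 1) * kp B k L b)| ≤
      q * (q - 1) * (q - 2) * (ee B k L b * μ) * (1 + ee B k L b) ^ q := by
  obtain ⟨-, -, h3⟩ := rh_second k (L + 1) _ h.hc (two_hlt h) (1 / ((L : ℝ) + 1 - b)) 0
    (delta_cond h) le_rfl
    (dl B k L b) (kp B k L b) (by
      rw [dl_eq]
      unfold ee Th1
      rw [Th_rh]
      ring) (by
      unfold kp Th1
      rw [Th_rh]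
      ring)
  have e1 : 1 + ee B k L b = rh k (L + 1) ((B.erase (k + 1 + L)).erase (k + b)) 1 := by
    unfold ee Th1
    rw [Th_rh]
    ring
  have e2 : ee B k L b = rh k (L + 1) ((B.erase (k + 1 + L)).erase (k + b)) 1 - 1 := rfl
  have h4 := h3 μ h1 (by
    push_cast
    rw [show (L : ℝ) + 1 + 2 = L + 3 by ring]
    exact h2) q
  rw [e1, e2]
  unfold gs Th1
  rw [Th_rh]
  have e3 : 1 + (q : ℝ) / ((L : ℝ) + 1 - b) =
      1 + q * (1 / ((L : ℝ) + 1 - b)) + q * (q - 1) * 0 := by ring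
  rw [e3]
  exact h4

/-- first order, both signs (helper38's (U1) for the top bead) -/
theorem gs_first {k L b s : ℕ} {B : Finset ℕ} (h : Two k L b s B) (q : ℕ) :
    1 + q * dl B k L b ≤ gs B k L b q ∧
      gs B k L b q ≤ 1 + q * dl B k L b +
        q * (q - 1) * (dl B k L b * ee B k L b) * (1 + ee B k L b) ^ q := by
  obtain ⟨u1, u2⟩ := rh_two_sided k (L + 1) _ h.hc (two_hlt h) (1 / ((L : ℝ) + 1 - b))
    (delta_cond h) q
  have e1 : 1 + ee B k L b = rh k (L + 1) ((B.erase (k + 1 + L)).erase (k + b)) 1 := by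
    unfold ee Th1
    rw [Th_rh]
    ring
  have e4 : (1 + 1 / ((L : ℝ) + 1 - b)) * rh k (L + 1) ((B.erase (k + 1 + L)).erase (k + b)) 1 - 1 =
      dl B k L b := rfl
  rw [e4] at u1 u2
  rw [← e1, show 1 + ee B k L b - 1 = ee B k L b by ring] at u2
  have e3 : 1 + (q : ℝ) / ((L : ℝ) + 1 - b) = 1 + q * (1 / ((L : ℝ) + 1 - b)) := by ring
  unfold gs Th1
  rw [Th_rh, e3]
  exact ⟨u1, u2⟩

end Pool.OB
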