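import Pool.Agent.Work.MP_46fa68_35.Top2

/-!
# MP_46fa68_co, S4: the second bead of `Two k L b s B` to first order, sizes of `e` and `ε`

`th q = Th2 B k L b q`, `ε = th 1 - 1`:  `|th q - (1 + q ε)| ≤ q (q-1) (ε μ) (1+ε)^q` for every `μ ≥ ε, 1/(b+1)`
(`th_first`), `ee_le'` (`s`-form of the size of `e`), `ep_le`.
-/

set_option autoImplicit false

open Finset Equiv

namespace Pool.OB

open Pool.JM

theorem qq_nonneg (q : ℕ) : (0 : ℝ) ≤ (q : ℝ) * (q - 1) := by
  rcases Nat.eq_zero_or_pos q with rfl | hq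
  · simp
  · have hq1 : (1 : ℝ) ≤ q := by exact_mod_cast hq
    exact mul_nonneg (by linarith) (by linarith)

/-- the exact remainder of one factor, first order -/
theorem gg_first {Z c δ : ℝ} (hc : c < Z) (hZ : 0 < Z) (q : ℕ) :
    (1 + q * δ) * gg Z c q = 1 + q * ((1 + δ) * gg Z c ((1 : ℕ) : ℝ) - 1) +
      q * (q - 1) * (c * (δ * Z - 1) / ((Z - c) * (Z + 1) * (Z + q))) := by
  have hq : (0 : ℝ) ≤ q := Nat.cast_nonneg q
  have e1 : Z - c ≠ 0 := by
    have : 0 < Z - c := by linarith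
    exact this.ne'
  have e2 : Z + 1 ≠ 0 := by positivity
  have e3 : Z + (q : ℝ) ≠ 0 := by positivity
  unfold gg
  push_cast
  field_simp
  ring

/-- **first order expansion without lower bound of `δ`** -/
theorem rh_first : ∀ (k a : ℕ) (C : Finset ℕ), C.card = k → (∀ y ∈ C, y < k + a) →
    ∀ δ : ℝ, 0 ≤ δ → ∀ δ' : ℝ, 1 + δ' = (1 + δ) * rh k a C 1 →
      δ ≤ δ' ∧ ∀ μ : ℝ, δ' ≤ μ → 1 ≤ μ * ((a : ℝ) + 1) → ∀ q : ℕ,
        |(1 + q * δ) * rh k a C q - (1 + q * δ')| ≤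
          q * (q - 1) * ((rh k a C 1 - 1) * μ) * rh k a C 1 ^ q
  | 0, a, C, hc, _ => by
    rw [card_eq_zero] at hc
    subst hc
    have h : ∀ q, rh 0 a ∅ q = 1 := fun q => by unfold rh; simp
    intro δ _ δ' h1
    rw [h, mul_one] at h1
    have e1 : δ' = δ := by linarith
    subst e1
    refine ⟨le_rfl, fun μ _ _ q => ?_⟩
    rw [h, h]
    simp
  | k + 1, a, C, hc, hb => by
    intro δ hδ0 δ' h1
    obtain ⟨c, hca, hcC, hmax, hrec⟩ := rh_step hc hb
    have hc' : (C.erase (k + c)).card = k := by rw [card_erase_of_mem hcC, hc]; omega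
    have hb' : ∀ y ∈ C.erase (k + c), y < k + (a + 1) := fun y hy => by
      have := hb y (mem_of_mem_erase hy); omega
    obtain ⟨p1, p2, -⟩ := rh_props k (a + 1) (C.erase (k + c)) hc' hb'
    have hcaR : (c : ℝ) ≤ a := by exact_mod_cast hca
    have ha : (0 : ℝ) ≤ a := Nat.cast_nonneg a
    have hc0 : (0 : ℝ) ≤ c := Nat.cast_nonneg c
    set Z : ℝ := (a : ℝ) + 1 with hZd
    have hcZ : (c : ℝ) < Z := by linarith
    have hZ : (0 : ℝ) < Z := by linarith
    have hZc : 0 < Z - c := by linarith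
    set φ := gg Z c ((1 : ℕ) : ℝ) with hφ
    have hφe : φ = 1 + c / ((Z - c) * (Z + 1)) := by rw [hφ, gg_one hcZ hZ]
    have hε0 : 0 ≤ (c : ℝ) / ((Z - c) * (Z + 1)) := by positivity
    have hφ1 : 1 ≤ φ := by rw [hφe]; linarith
    set δ1 := (1 + δ) * φ - 1 with hδ1d
    have hδδ1 : δ ≤ δ1 := by rw [hδ1d]; nlinarith
    rw [hrec 1, ← hφ] at h1
    obtain ⟨i2, i3⟩ := rh_first k (a + 1) (C.erase (k + c)) hc' hb' δ1 (hδ0.trans hδδ1)
      δ' (by rw [h1, hδ1d]; ring)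
    refine ⟨hδδ1.trans i2, fun μ hμ1 hμ2 q => ?_⟩
    have hμ0 : 0 ≤ μ := by linarith
    have hpow := rh_le_pow k (a + 1) (C.erase (k + c)) hc' hb' q
    have hE1 : 1 ≤ rh k (a + 1) (C.erase (k + c)) 1 := by
      rw [← rh_zero' hb']
      exact p2 0
    have hrpos := p1 q
    have i4 := i3 μ hμ1 (by push_cast; nlinarith) q
    have hgs := gg_first (δ := δ) hcZ hZ q
    rw [← hφ, ← hδ1d] at hgs
    rw [hrec q, hrec 1, ← hφ]
    set E := rh k (a + 1) (C.erase (k + c)) 1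
    set r := rh k (a + 1) (C.erase (k + c)) q
    set X : ℝ := (c : ℝ) * (δ * Z - 1) / ((Z - c) * (Z + 1) * (Z + q)) with hX
    have hqq := qq_nonneg q
    have hq0 : (0 : ℝ) ≤ q := Nat.cast_nonneg q
    have hXa : |X| ≤ (φ - 1) * μ := by
      have x1 : X = (c : ℝ) / ((Z - c) * (Z + 1)) * ((δ * Z - 1) / (Z + q)) := by
        rw [hX]
        have n1 : Z - c ≠ 0 := hZc.ne'
        have n2 : Z + 1 ≠ 0 := by positivity
        have n3 : Z + (q : ℝ) ≠ 0 := by positivity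
        field_simp
      have hδμ : δ ≤ μ := (hδδ1.trans i2).trans hμ1
      have x2 : |(δ * Z - 1) / (Z + q)| ≤ μ := by
        rw [abs_div, abs_of_pos (by positivity : (0 : ℝ) < Z + q), div_le_iff₀ (by positivity),
          abs_le]
        have t1 : 0 ≤ δ * Z := by positivity
        have t2 : 0 ≤ μ * q := by positivity
        have t3 : δ * Z ≤ μ * Z := mul_le_mul_of_nonneg_right hδμ hZ.le
        constructor <;> nlinarith
      rw [x1, abs_mul, abs_of_nonneg hε0, hφe, show 1 + (c : ℝ) / ((Z - c) * (Z + 1)) - 1 =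
        c / ((Z - c) * (Z + 1)) by ring]
      exact mul_le_mul_of_nonneg_left x2 hε0
    have e1 : (1 + q * δ) * (gg Z c q * r) - (1 + q * δ') =
        ((1 + q * δ1) * r - (1 + q * δ')) + (q * (q - 1)) * (X * r) := by
      have : (1 + q * δ) * (gg Z c q * r) = ((1 + q * δ) * gg Z c q) * r := by ring
      rw [this, hgs]
      ring
    rw [e1]
    have hEq0 : 0 ≤ E ^ q := by positivity
    have hEq : E ^ q ≤ (φ * E) ^ q :=
      pow_le_pow_left₀ (by linarith) (by nlinarith) q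
    have a1 : |X * r| ≤ (φ - 1) * μ * E ^ q := by
      rw [abs_mul, abs_of_pos hrpos]
      exact mul_le_mul hXa hpow hrpos.le (mul_nonneg (by linarith) hμ0)
    calc |((1 + q * δ1) * r - (1 + q * δ')) + (q * (q - 1)) * (X * r)|
        ≤ q * (q - 1) * ((E - 1) * μ) * E ^ q + q * (q - 1) * ((φ - 1) * μ * E ^ q) := by
          refine (abs_add_le _ _).trans (add_le_add i4 ?_)
          rw [abs_mul, abs_of_nonneg hqq]
          exact mul_le_mul_of_nonneg_left a1 hqq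
      _ = q * (q - 1) * (μ * (((E - 1) + (φ - 1)) * E ^ q)) := by ring
      _ ≤ q * (q - 1) * (μ * ((φ * E - 1) * (φ * E) ^ q)) := by
          refine mul_le_mul_of_nonneg_left (mul_le_mul_of_nonneg_left ?_ hμ0) hqq
          have t3 : (E - 1) + (φ - 1) ≤ φ * E - 1 := by nlinarith
          exact mul_le_mul t3 hEq hEq0 (by nlinarith)
      _ = _ := by ring

/-- the effect of the rows `≥ 3` on one step of the second bead -/
noncomputable def ep (B : Finset ℕ) (k L b : ℕ) : ℝ := Th2 B k L b 1 - 1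

theorem ep_nonneg {k L b s : ℕ} {B : Finset ℕ} (h : Two k L b s B) : 0 ≤ ep B k L b := by
  have := h.one_le_Th2 1
  unfold ep
  linarith

/-- **(R2)** the second bead -/
theorem th_first {k L b s : ℕ} {B : Finset ℕ} (h : Two k L b s B) {μ : ℝ}
    (h1 : ep B k L b ≤ μ) (h2 : 1 ≤ μ * ((b : ℝ) + 1)) (q : ℕ) :
    |Th2 B k L b q - (1 + q * ep B k L b)| ≤
      q * (q - 1) * (ep B k L b * μ) * (1 + ep B k L b) ^ q := by
  obtain ⟨-, h3⟩ := rh_first k b _ h.hc h.hlt 0 le_rfl (ep B k L b) (by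
      unfold ep Th2
      rw [Th_rh]
      ring)
  have h4 := h3 μ h1 h2 q
  rw [mul_zero, add_zero, one_mul] at h4
  have e1 : 1 + ep B k L b = rh k b ((B.erase (k + 1 + L)).erase (k + b)) 1 := by
    unfold ep Th2
    rw [Th_rh]
    ring
  have e2 : ep B k L b = rh k b ((B.erase (k + 1 + L)).erase (k + b)) 1 - 1 := rfl
  rw [e1, e2]
  exact h4

theorem th_first_max {k L b s : ℕ} {B : Finset ℕ} (h : Two k L b s B) (q : ℕ) :
    |Th2 B k L b q - (1 + q * ep B k L b)| ≤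
      q * (q - 1) * (ep B k L b * max (ep B k L b) (1 / ((b : ℝ) + 1))) * (1 + ep B k L b) ^ q := by
  refine th_first h (le_max_left _ _) ?_ q
  have hb : (0 : ℝ) < (b : ℝ) + 1 := by positivity
  have : 1 / ((b : ℝ) + 1) ≤ max (ep B k L b) (1 / ((b : ℝ) + 1)) := le_max_right _ _
  rwa [div_le_iff₀ hb] at this

theorem gs_second_max {k L b s : ℕ} {B : Finset ℕ} (h : Two k L b s B) (q : ℕ) :
    |gs B k L b q - (1 + q * dl B k L b + q * (q - 1) * kp B k L b)| ≤
      q * (q - 1) * (q - 2) * (ee B k L b * max (kp B k L b) (dl B k L b / ((L : ℝ) + 3))) *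
        (1 + ee B k L b) ^ q := by
  refine gs_second h (le_max_left _ _) ?_ q
  have hb : (0 : ℝ) < (L : ℝ) + 3 := by positivity
  have : dl B k L b / ((L : ℝ) + 3) ≤ max (kp B k L b) (dl B k L b / ((L : ℝ) + 3)) :=
    le_max_right _ _
  rwa [div_le_iff₀ hb] at this

/-! ## sizes -/

/-- a row `≥ 3` has at most `s` boxes -/
theorem two_hlt_s {k L b s : ℕ} {B : Finset ℕ} (h : Two k L b s B) :
    ∀ y ∈ (B.erase (k + 1 + L)).erase (k + b), y < k + s := by
  intro y hy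
  have hs := h.hs
  have hc := h.hc
  have e1 := add_sum_erase _ (fun z => z) hy
  rcases k with _ | k
  · rw [card_eq_zero] at hc
    rw [hc] at hy
    exact absurd hy (notMem_empty _)
  · have hc1 : (((B.erase (k + 1 + 1 + L)).erase (k + 1 + b)).erase y).card = k := by
      rw [card_erase_of_mem hy, hc]; omega
    have h2 := sum_range_le hc1
    rw [sum_range_succ] at hs
    omega

/-- **(R3)**, form with the number `s` of boxes -/
theorem ee_le' {k L b s : ℕ} {B : Finset ℕ} (h : Two k L b s B) (hs : s ≤ L + 1) :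
    (1 + ee B k L b) * (1 - s / (((L : ℝ) + 2 - s) * (L + 3))) ≤ 1 := by
  have h2 := rh_one_le k (L + 1) s s _ hs h.hc (two_hlt_s h) h.hs
  have e1 : 1 + ee B k L b = rh k (L + 1) ((B.erase (k + 1 + L)).erase (k + b)) 1 := by
    unfold ee Th1
    rw [Th_rh]
    ring
  rw [e1]
  push_cast at h2
  rw [show (L : ℝ) + 2 - s = (L : ℝ) + 1 + 1 - s by ring, show (L : ℝ) + 3 = (L : ℝ) + 1 + 2 by ring]
  exact h2

/-- from `(1 + e)(1 - z) ≤ 1` to `e ≤ z / (1 - z)` -/
theorem e_of_z {e z : ℝ} (h : (1 + e) * (1 - z) ≤ 1) (hz : z < 1) : e ≤ z / (1 - z) := by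
  rw [le_div_iff₀ (by linarith)]
  linarith

theorem ep_le {k L b s : ℕ} {B : Finset ℕ} (h : Two k L b s B) (hs : s ≤ b) :
    ep B k L b ≤ s / (((b : ℝ) + 1 - s) * (b + 1)) := by
  have h1 := h.Th2_le_row hs 1
  have hsR : (s : ℝ) ≤ b := by exact_mod_cast hs
  have hb0 : (0 : ℝ) ≤ b := Nat.cast_nonneg b
  have hs0 : (0 : ℝ) ≤ s := Nat.cast_nonneg s
  have h2 : 0 < (b : ℝ) + 1 - s := by linarith
  unfold ep
  have h3 : (1 + ((1 : ℕ) : ℝ) / ((b : ℝ) + 1 - s)) / (1 + ((1 : ℕ) : ℝ) / ((b : ℝ) + 1)) - 1 =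
      s / (((b : ℝ) + 1 - s) * (b + 2)) := by
    have n1 : (b : ℝ) + 1 - s ≠ 0 := h2.ne'
    have n2 : (b : ℝ) + 1 ≠ 0 := by positivity
    have n3 : (b : ℝ) + 2 ≠ 0 := by positivity
    have n4 : (b : ℝ) + 1 + 1 ≠ 0 := by positivity
    push_cast
    rw [show (1 : ℝ) + 1 / ((b : ℝ) + 1) = (b + 2) / (b + 1) by field_simp; ring]
    field_simp
    ring
  have h4 : (s : ℝ) / (((b : ℝ) + 1 - s) * (b + 2)) ≤ s / (((b : ℝ) + 1 - s) * (b + 1)) :=
    div_le_div_of_nonneg_left hs0 (by positivity) (by nlinarith)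
  linarith

end Pool.OB
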