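import Pool.Agent.Work.MP_46fa68_47.Inf
import Pool.Agent.Work.MP_46fa68_36.Theta
import Pool.Agent.Work.MP_46fa68_38.TwoRow

/-!
# MP_46fa68_co, S4: the variance inequality of a joint certificate, reduced to the two top rows

`C ∈ Lv (k + 2) n` with the two top beads `x₁ = k + 1 + L`, `x₂ = k + b` (structure `Two k L b s C`).

* `Two.mv1`, `Two.mv2`, `Two.mv3`: the three kinds of moves;
* `sum_ad`: the weights of the movable beads add up to one;
* `var_split`: the variance sum over all movable beads is bounded by the two top beads and one class;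
* `Rr_far`, `HIx_far`, `HIx_far_le`: the change of the contribution of a bead when a lower bead moves.
-/

set_option autoImplicit false

open Finset Equiv

namespace Pool.OB

open Pool.JM

/-! ## weights -/

theorem w_nonneg' {B : Finset ℕ} {x : ℕ} : 0 ≤ w B x := by
  unfold w
  refine div_nonneg (prod_nonneg fun y hy => ?_) (by positivity)
  rcases lt_or_gt_of_ne (ne_of_mem_erase hy) with h | h
  · have h1 : (y : ℝ) + 1 ≤ x := by exact_mod_cast h
    exact div_nonneg (by linarith) (by linarith)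
  · have h1 : (x : ℝ) + 1 ≤ y := by exact_mod_cast h
    exact div_nonneg_of_nonpos (by linarith) (by linarith)

/-- the weights of the movable beads -/
theorem sum_ad {C : Finset ℕ} (h0 : 0 ∈ C) : ∑ x ∈ ad C, w C x = 1 := by
  rw [← w_sum C h0]
  unfold ad
  rw [sum_filter]
  refine sum_congr rfl fun x _ => ?_
  by_cases h : x + 1 ∉ C
  · rw [if_pos h]
  · rw [if_neg h]
    exact (w_zero (not_not.1 h)).symm

/-! ## the moves -/

theorem two_cases {k L b s : ℕ} {C : Finset ℕ} (h : Two k L b s C) {x : ℕ} (hx : x ∈ C) :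
    x = k + 1 + L ∨ x = k + b ∨ x < k + b := by
  by_cases h1 : x = k + 1 + L
  · exact Or.inl h1
  by_cases h2 : x = k + b
  · exact Or.inr (Or.inl h2)
  exact Or.inr (Or.inr (h.hlt x (mem_erase.2 ⟨h2, mem_erase.2 ⟨h1, hx⟩⟩)))

theorem two_ne {k L b s : ℕ} {C : Finset ℕ} (h : Two k L b s C) : k + b < k + 1 + L := by
  have := h.hbL
  omega

/-- the top bead moves -/
theorem two_mv1 {k L b s : ℕ} {C : Finset ℕ} (h : Two k L b s C) :
    Two k (L + 1) b s (mv C (k + 1 + L)) := by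
  have hne := two_ne h
  have htop := h.top
  have hx1 : k + 1 + (L + 1) ∉ C.erase (k + 1 + L) := fun hh => by
    have := htop _ (mem_of_mem_erase hh)
    omega
  have e1 : (mv C (k + 1 + L)).erase (k + 1 + (L + 1)) = C.erase (k + 1 + L) := by
    unfold mv
    rw [show k + 1 + L + 1 = k + 1 + (L + 1) by omega]
    exact erase_insert hx1
  refine ⟨by have := h.hbL; omega, ?_, ?_, ?_, ?_, ?_⟩
  · exact mem_insert.2 (Or.inl (by omega))
  · exact mem_insert.2 (Or.inr (mem_erase.2 ⟨by omega, h.h2⟩))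
  · rw [e1]; exact h.hc
  · rw [e1]; exact h.hs
  · rw [e1]; exact h.hlt

/-- the second bead moves -/
theorem two_mv2 {k L b s : ℕ} {C : Finset ℕ} (h : Two k L b s C) (hb : b < L) :
    Two k L (b + 1) s (mv C (k + b)) := by
  have htop := h.top
  have hn : k + b + 1 ∉ C := fun hh => by
    rcases two_cases h hh with h1 | h1 | h1 <;> omega
  have e1 : (mv C (k + b)).erase (k + 1 + L) = insert (k + (b + 1)) ((C.erase (k + 1 + L)).erase
      (k + b)) := by
    unfold mv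
    rw [erase_insert_of_ne (by omega), erase_right_comm, show k + b + 1 = k + (b + 1) by omega]
  have e2 : ((mv C (k + b)).erase (k + 1 + L)).erase (k + (b + 1)) =
      (C.erase (k + 1 + L)).erase (k + b) := by
    rw [e1]
    refine erase_insert fun hh => hn ?_
    have := mem_of_mem_erase (mem_of_mem_erase hh)
    rwa [show k + (b + 1) = k + b + 1 by omega] at this
  refine ⟨by omega, ?_, ?_, ?_, ?_, ?_⟩
  · exact mem_insert.2 (Or.inr (mem_erase.2 ⟨by omega, h.h1⟩))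
  · exact mem_insert.2 (Or.inl (by omega))
  · rw [e2]; exact h.hc
  · rw [e2]; exact h.hs
  · rw [e2]
    intro y hy
    have := h.hlt y hy
    omega

/-- a lower bead moves -/
theorem two_mv3 {k L b s : ℕ} {C : Finset ℕ} (h : Two k L b s C) {x : ℕ} (hx : x ∈ ad C)
    (hxb : x < k + b) : Two k L b (s + 1) (mv C x) ∧ x + 1 < k + b := by
  obtain ⟨hxC, hx1⟩ := mem_ad.1 hx
  have hbL := h.hbL
  have hlt : x + 1 < k + b := by
    rcases Nat.lt_or_ge (x + 1) (k + b) with h1 | h1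
    · exact h1
    · exact absurd (show x + 1 ∈ C by rw [show x + 1 = k + b by omega]; exact h.h2) hx1
  have hxR : x ∈ (C.erase (k + 1 + L)).erase (k + b) :=
    mem_erase.2 ⟨by omega, mem_erase.2 ⟨by omega, hxC⟩⟩
  have e1 : ((mv C x).erase (k + 1 + L)).erase (k + b) =
      insert (x + 1) (((C.erase (k + 1 + L)).erase (k + b)).erase x) := by
    unfold mv
    rw [erase_insert_of_ne (by omega), erase_insert_of_ne (by omega)]
    congr 1
    rw [erase_right_comm (a := x), erase_right_comm (a := x)]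
  have hn : x + 1 ∉ ((C.erase (k + 1 + L)).erase (k + b)).erase x := fun hh =>
    hx1 (mem_of_mem_erase (mem_of_mem_erase (mem_of_mem_erase hh)))
  have e3 := add_sum_erase _ (fun y => y) hxR
  have hc := h.hc
  have hs := h.hs
  refine ⟨⟨hbL, ?_, ?_, ?_, ?_, ?_⟩, hlt⟩
  · exact mem_insert.2 (Or.inr (mem_erase.2 ⟨by omega, h.h1⟩))
  · exact mem_insert.2 (Or.inr (mem_erase.2 ⟨by omega, h.h2⟩))
  · have hp : 0 < ((C.erase (k + 1 + L)).erase (k + b)).card := card_pos.2 ⟨x, hxR⟩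
    rw [e1, card_insert_of_notMem hn, card_erase_of_mem hxR]
    omega
  · rw [e1, sum_insert hn]
    omega
  · rw [e1]
    intro y hy
    rcases mem_insert.1 hy with h1 | h1
    · omega
    · exact h.hlt y (mem_of_mem_erase h1)

theorem ad_top {k L b s : ℕ} {C : Finset ℕ} (h : Two k L b s C) : k + 1 + L ∈ ad C :=
  mem_ad.2 ⟨h.h1, fun hh => by
    have := h.top _ hh
    omega⟩

theorem ad_two {k L b s : ℕ} {C : Finset ℕ} (h : Two k L b s C) (hb : b < L) : k + b ∈ ad C :=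
  mem_ad.2 ⟨h.h2, fun hh => by
    rcases two_cases h hh with h1 | h1 | h1 <;> omega⟩

/-- equal rows: the second bead cannot move -/
theorem w_two_zero {k L s : ℕ} {C : Finset ℕ} (h : Two k L L s C) : w C (k + L) = 0 :=
  w_zero (by rw [show k + L + 1 = k + 1 + L by omega]; exact h.h1)

/-! ## the split of a sum over the movable beads -/

/-- every weighted sum over the movable beads: the two top beads and the rest -/
theorem sum_split {k L b s : ℕ} {C : Finset ℕ} (h : Two k L b s C) (u : ℕ → ℝ) :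
    ∑ x ∈ ad C, w C x * u x = w C (k + 1 + L) * u (k + 1 + L) + w C (k + b) * u (k + b) +
      ∑ x ∈ (ad C).filter (fun x => x < k + b), w C x * u x := by
  have hne := two_ne h
  have e0 : ∑ x ∈ ad C, w C x * u x = ∑ x ∈ C, w C x * u x := by
    unfold ad
    rw [sum_filter]
    refine sum_congr rfl fun x _ => ?_
    by_cases hh : x + 1 ∉ C
    · rw [if_pos hh]
    · rw [if_neg hh, w_zero (not_not.1 hh), zero_mul]
  have hm : k + b ∈ C.erase (k + 1 + L) := mem_erase.2 ⟨by omega, h.h2⟩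
  rw [e0, ← add_sum_erase C _ h.h1, ← add_sum_erase _ _ hm, ← add_assoc]
  congr 1
  have e1 : (ad C).filter (fun x => x < k + b) =
      ((C.erase (k + 1 + L)).erase (k + b)).filter (fun x => x + 1 ∉ C) := by
    ext x
    rw [mem_filter, mem_ad, mem_filter, mem_erase, mem_erase]
    constructor
    · rintro ⟨⟨h1, h2⟩, h3⟩
      exact ⟨⟨by omega, by omega, h1⟩, h2⟩
    · rintro ⟨⟨h1, h2, h3⟩, h4⟩
      exact ⟨⟨h3, h4⟩, h.hlt x (mem_erase.2 ⟨h1, mem_erase.2 ⟨h2, h3⟩⟩)⟩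
  rw [e1, sum_filter]
  refine sum_congr rfl fun x _ => ?_
  by_cases hh : x + 1 ∉ C
  · rw [if_pos hh]
  · rw [if_neg hh, w_zero (not_not.1 hh), zero_mul]

/-- the weight of the lower beads -/
theorem sum_low {k L b s : ℕ} {C : Finset ℕ} (h : Two k L b s C) (h0 : 0 ∈ C) :
    ∑ x ∈ (ad C).filter (fun x => x < k + b), w C x =
      1 - Rr C (k + 1 + L) 1 - Rr C (k + b) 1 := by
  have h1 := sum_split h (fun _ => 1)
  simp only [mul_one] at h1
  rw [sum_ad h0, w_eq_Rr, w_eq_Rr] at h1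
  linarith

/-- **the variance sum, reduced to the two top rows** -/
theorem var_split {k L b s n : ℕ} {C : Finset ℕ} (hC : C ∈ Lv (k + 2) n) (hn : n < k + 2)
    (h : Two k L b s C) (F G : Finset ℕ → ℝ) (c M G0 : ℝ) (hG0 : 0 < G0)
    (hF : ∀ x ∈ ad C, x < k + b → |F (mv C x) - c| ≤ M)
    (hG : ∀ x ∈ ad C, x < k + b → G0 ≤ G (mv C x)) :
    ∑ x ∈ ad C, w C x * ((F (mv C x) - c) ^ 2 / G (mv C x)) ≤
      Rr C (k + 1 + L) 1 * ((F (mv C (k + 1 + L)) - c) ^ 2 / G (mv C (k + 1 + L))) +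
        Rr C (k + b) 1 * ((F (mv C (k + b)) - c) ^ 2 / G (mv C (k + b))) +
        (1 - Rr C (k + 1 + L) 1 - Rr C (k + b) 1) * (M ^ 2 / G0) := by
  have h0 : 0 ∈ C := Lv_zero_mem hC hn
  rw [sum_split h, ← sum_low h h0, sum_mul, w_eq_Rr C (k + 1 + L), w_eq_Rr C (k + b)]
  refine add_le_add le_rfl (sum_le_sum fun x hx => ?_)
  obtain ⟨hx1, hx2⟩ := mem_filter.1 hx
  refine mul_le_mul_of_nonneg_left ?_ w_nonneg'
  have h1 := hF x hx1 hx2
  have h2 := hG x hx1 hx2
  have h3 : (F (mv C x) - c) ^ 2 ≤ M ^ 2 := sq_le_sq' (by linarith [(abs_le.1 h1).1]) (abs_le.1 h1).2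
  exact div_le_div₀ (by positivity) h3 hG0 h2

/-- the hypothesis `hal` of `joint_cell` -/
theorem hal_of {k n : ℕ} (hn : n < k + 2) (F G al : Finset ℕ → ℝ)
    (H : ∀ (L b s : ℕ) (C : Finset ℕ), C ∈ Lv (k + 2) n → n = L + b + s → Two k L b s C →
      ∃ c M G0 : ℝ, 0 < G0 ∧ (∀ x ∈ ad C, x + 1 < k + b → Two k L b (s + 1) (mv C x) →
        |F (mv C x) - c| ≤ M ∧ G0 ≤ G (mv C x)) ∧
      Rr C (k + 1 + L) 1 * ((F (mv C (k + 1 + L)) - c) ^ 2 / G (mv C (k + 1 + L))) +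
        Rr C (k + b) 1 * ((F (mv C (k + b)) - c) ^ 2 / G (mv C (k + b))) +
        (1 - Rr C (k + 1 + L) 1 - Rr C (k + b) 1) * (M ^ 2 / G0) ≤ al C) :
    ∃ ph : Finset ℕ → ℝ, ∀ C ∈ Lv (k + 2) n,
      ∑ x ∈ ad C, w C x * ((F (mv C x) - ph C) ^ 2 / G (mv C x)) ≤ al C := by
  classical
  have key : ∀ C : Finset ℕ, ∃ c : ℝ, C ∈ Lv (k + 2) n →
      ∑ x ∈ ad C, w C x * ((F (mv C x) - c) ^ 2 / G (mv C x)) ≤ al C := by
    intro C
    by_cases hC : C ∈ Lv (k + 2) n
    · obtain ⟨L, b, s, hN, hT⟩ := exists_two hC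
      obtain ⟨c, M, G0, hG0, h1, h2⟩ := H L b s C hC hN hT
      refine ⟨c, fun _ => (var_split hC hn hT F G c M G0 hG0 (fun x hx hxb => ?_)
        (fun x hx hxb => ?_)).trans h2⟩
      · obtain ⟨h3, h4⟩ := two_mv3 hT hx hxb
        exact (h1 x hx h4 h3).1
      · obtain ⟨h3, h4⟩ := two_mv3 hT hx hxb
        exact (h1 x hx h4 h3).2
    · exact ⟨0, fun h => absurd h hC⟩
  choose ph hph using key
  exact ⟨ph, fun C hC => hph C hC⟩

/-! ## the change of a higher bead when a lower bead moves -/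

theorem Rr_far {C : Finset ℕ} {x z : ℕ} (hx : x ∈ C) (hz : z ∈ C) (hz1 : z + 1 ∉ C)
    (hzx : z < x) (p : ℕ) :
    Rr (mv C z) x p = Rr C x p * (1 + (p : ℝ) / (((x : ℝ) - z - 1) * ((x : ℝ) - z + p))) := by
  have hzx' : z + 1 < x := by
    rcases Nat.lt_or_ge (z + 1) x with h1 | h1
    · exact h1
    · exact absurd (show z + 1 ∈ C by rw [show z + 1 = x by omega]; exact hx) hz1
  have h1 : (z : ℝ) + 1 < x := by exact_mod_cast hzx'
  have h2 : (0 : ℝ) ≤ p := Nat.cast_nonneg p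
  have h3 := Rr_mv_other hx hz (by omega : z ≠ x) hz1 p
  have h4 : (x : ℝ) - z - 1 ≠ 0 := by
    have : 0 < (x : ℝ) - z - 1 := by linarith
    exact this.ne'
  have h5 : (x : ℝ) - z + p ≠ 0 := by
    have : 0 < (x : ℝ) - z + p := by linarith
    exact this.ne'
  have h6 : ((x : ℝ) + p - z) * ((x : ℝ) - z - 1) ≠ 0 := by
    refine mul_ne_zero ?_ h4
    rwa [show (x : ℝ) + p - z = (x : ℝ) - z + p by ring]
  have h7 : Rr (mv C z) x p = Rr C x p * (((x : ℝ) + p - z - 1) * ((x : ℝ) - z)) /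
      (((x : ℝ) + p - z) * ((x : ℝ) - z - 1)) := by
    rw [eq_div_iff h6]
    exact h3
  rw [h7, mul_div_assoc]
  congr 1
  rw [show (x : ℝ) + p - z = (x : ℝ) - z + p by ring]
  field_simp
  ring

theorem far_factor {d p : ℝ} (hd : 1 < d) (hp : 0 ≤ p) :
    0 ≤ p / ((d - 1) * (d + p)) ∧ p / ((d - 1) * (d + p)) ≤ p / ((d - 1) * d) := by
  have h1 : 0 < d - 1 := by linarith
  constructor
  · positivity
  · refine div_le_div_of_nonneg_left hp (by nlinarith) ?_
    nlinarith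

/-- summability of the absolute contributions with the factor `p` -/
theorem summable_mom {t Q : ℕ} (hQ : 1 ≤ Q) {v : ℕ → ℕ → ℝ} (τ : ℝ) {V : ℕ → ℝ} (hV : VB v V)
    {M0 : ℕ} (hM : 1 ≤ M0) (B : Finset ℕ) (x : ℕ) :
    Summable fun p : ℕ => |kl t Q v τ ((M0 : ℤ) - x) p * Rr B x p| * p := by
  have h1 : ∀ p : ℕ, |kl t Q v τ ((M0 : ℤ) - x) p * Rr B x p| * p ≤
      (∑ q ∈ range Q, V q + |τ|) * 2 ^ t * (16 ^ p / p.factorial) := by
    intro p
    have h2 := term_abs (t := t) hQ τ hV hM B x p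
    have h3 : (p : ℝ) ≤ 2 ^ p := by exact_mod_cast (Nat.lt_two_pow_self (n := p)).le
    have h4 : (0 : ℝ) ≤ p := Nat.cast_nonneg p
    calc |kl t Q v τ ((M0 : ℤ) - x) p * Rr B x p| * p
        ≤ (∑ q ∈ range Q, V q + |τ|) * 2 ^ t * (8 ^ p / p.factorial) * 2 ^ p :=
          mul_le_mul h2 h3 h4 ((abs_nonneg _).trans h2)
      _ = _ := by
          rw [show (16 : ℝ) = 8 * 2 by norm_num, mul_pow]
          ring
  exact Summable.of_nonneg_of_le (fun p => mul_nonneg (abs_nonneg _) (Nat.cast_nonneg p)) h1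
    ((Real.summable_pow_div_factorial 16).mul_left _)

/-- the absolute first moment of the bead `x` -/
noncomputable def HA (K m t Q : ℕ) (v : ℕ → ℕ → ℝ) (τ : ℝ) (B : Finset ℕ) (x : ℕ) : ℝ :=
  ∑' p, |kl t Q v τ (((K - 1 + m : ℕ) : ℤ) - x) p * Rr B x p| * p

/-- **the change of the contribution of `x` when a lower bead `z` moves** -/
theorem HIx_far {K m t Q : ℕ} (hM : 1 ≤ K - 1 + m) (hQ : 1 ≤ Q) {v : ℕ → ℕ → ℝ} (τ : ℝ)
    {V : ℕ → ℝ} (hV : VB v V) {C : Finset ℕ} {x z : ℕ} (hx : x ∈ C) (hz : z ∈ C)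
    (hz1 : z + 1 ∉ C) (hzx : z < x) :
    |HIx K m t Q v τ (mv C z) x - HIx K m t Q v τ C x| ≤
      HA K m t Q v τ C x / (((x : ℝ) - z - 1) * ((x : ℝ) - z)) := by
  have hzx' : z + 1 < x := by
    rcases Nat.lt_or_ge (z + 1) x with h1 | h1
    · exact h1
    · exact absurd (show z + 1 ∈ C by rw [show z + 1 = x by omega]; exact hx) hz1
  have hd : (1 : ℝ) < (x : ℝ) - z := by
    have : (z : ℝ) + 1 < x := by exact_mod_cast hzx'
    linarith
  have s1 := summable_term (t := t) hQ τ hV hM (mv C z) x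
  have s2 := summable_term (t := t) hQ τ hV hM C x
  have s3 := summable_mom (t := t) hQ τ hV hM C x
  unfold HIx
  rw [← s1.tsum_sub s2]
  have hb : ∀ p : ℕ, |kl t Q v τ (((K - 1 + m : ℕ) : ℤ) - x) p * Rr (mv C z) x p -
      kl t Q v τ (((K - 1 + m : ℕ) : ℤ) - x) p * Rr C x p| ≤
      |kl t Q v τ (((K - 1 + m : ℕ) : ℤ) - x) p * Rr C x p| * p *
        (1 / (((x : ℝ) - z - 1) * ((x : ℝ) - z))) := by
    intro p
    have h2 : (0 : ℝ) ≤ p := Nat.cast_nonneg p
    obtain ⟨f1, f2⟩ := far_factor hd h2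
    rw [Rr_far hx hz hz1 hzx p]
    rw [show kl t Q v τ (((K - 1 + m : ℕ) : ℤ) - x) p * (Rr C x p *
        (1 + (p : ℝ) / (((x : ℝ) - z - 1) * ((x : ℝ) - z + p)))) -
        kl t Q v τ (((K - 1 + m : ℕ) : ℤ) - x) p * Rr C x p =
        kl t Q v τ (((K - 1 + m : ℕ) : ℤ) - x) p * Rr C x p *
          ((p : ℝ) / (((x : ℝ) - z - 1) * ((x : ℝ) - z + p))) by ring, abs_mul, abs_of_nonneg f1,
      mul_assoc]
    refine mul_le_mul_of_nonneg_left ?_ (abs_nonneg _)
    rw [← div_eq_mul_one_div]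
    exact f2
  unfold HA
  rw [div_eq_mul_one_div, ← tsum_mul_right]
  have s4 := s3.mul_right (1 / (((x : ℝ) - z - 1) * ((x : ℝ) - z)))
  have h5 := tsum_of_norm_bounded s4.hasSum (fun p => by rw [Real.norm_eq_abs]; exact hb p)
  rwa [Real.norm_eq_abs] at h5

/-- the function at `B`: the two top beads and the lower beads -/
noncomputable def HL (K m t Q : ℕ) (v : ℕ → ℕ → ℝ) (τ : ℝ) (B : Finset ℕ) (y : ℕ) : ℝ :=
  ∑ x ∈ B.filter (fun x => x < y), HIx K m t Q v τ B x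

theorem HI_two {k L b s K m t Q : ℕ} (v : ℕ → ℕ → ℝ) (τ : ℝ) {B : Finset ℕ}
    (h : Two k L b s B) :
    HI K m t Q v τ B = HIx K m t Q v τ B (k + 1 + L) + HIx K m t Q v τ B (k + b) +
      HL K m t Q v τ B (k + b) := by
  have hne := two_ne h
  have hm : k + b ∈ B.erase (k + 1 + L) := mem_erase.2 ⟨by omega, h.h2⟩
  unfold HI HL
  rw [← add_sum_erase B _ h.h1, ← add_sum_erase _ _ hm, ← add_assoc]
  congr 1
  refine sum_congr ?_ fun _ _ => rfl
  ext x
  rw [mem_filter, mem_erase, mem_erase]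
  constructor
  · rintro ⟨h1, h2, h3⟩
    exact ⟨h3, h.hlt x (mem_erase.2 ⟨h1, mem_erase.2 ⟨h2, h3⟩⟩)⟩
  · rintro ⟨h1, h2⟩
    exact ⟨by omega, by omega, h1⟩

/-- **the class of the lower moves**: centre = contributions of the two top beads of `C` -/
theorem HI_far {k L b s K m t Q : ℕ} (hM : 1 ≤ K - 1 + m) (hQ : 1 ≤ Q) {v : ℕ → ℕ → ℝ} (τ : ℝ)
    {V : ℕ → ℝ} (hV : VB v V) {C : Finset ℕ} (h : Two k L b s C) {z : ℕ} (hz : z ∈ ad C)
    (hzb : z + 1 < k + b) :
    |HI K m t Q v τ (mv C z) - (HIx K m t Q v τ C (k + 1 + L) + HIx K m t Q v τ C (k + b))| ≤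
      HA K m t Q v τ C (k + 1 + L) / ((((k + 1 + L : ℕ) : ℝ) - z - 1) *
        (((k + 1 + L : ℕ) : ℝ) - z)) +
      HA K m t Q v τ C (k + b) / ((((k + b : ℕ) : ℝ) - z - 1) * (((k + b : ℕ) : ℝ) - z)) +
      |HL K m t Q v τ (mv C z) (k + b)| := by
  obtain ⟨hz0, hz1⟩ := mem_ad.1 hz
  have hne := two_ne h
  obtain ⟨hT, -⟩ := two_mv3 h hz (by omega)
  rw [HI_two v τ hT]
  have a1 := HIx_far (t := t) hM hQ τ hV h.h1 hz0 hz1 (by omega)
  have a2 := HIx_far (t := t) hM hQ τ hV h.h2 hz0 hz1 (by omega)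
  have e1 : HIx K m t Q v τ (mv C z) (k + 1 + L) + HIx K m t Q v τ (mv C z) (k + b) +
      HL K m t Q v τ (mv C z) (k + b) -
      (HIx K m t Q v τ C (k + 1 + L) + HIx K m t Q v τ C (k + b)) =
      (HIx K m t Q v τ (mv C z) (k + 1 + L) - HIx K m t Q v τ C (k + 1 + L)) +
      (HIx K m t Q v τ (mv C z) (k + b) - HIx K m t Q v τ C (k + b)) +
      HL K m t Q v τ (mv C z) (k + b) := by ring
  rw [e1]
  exact (abs_add_three _ _ _).trans (add_le_add (add_le_add a1 a2) le_rfl)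

end Pool.OB
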